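import Pool.Agent.MWE.Stmts

set_option autoImplicit false

/-!
# Squad MWE, row TRA: deletion and insertion of `x`, `y`
-/

namespace Pool.Agent.MWE.H23

open Pool.Agent.Helper14_MV Pool.Agent.Helper2_MV Pool.Agent.MVD Pool.Agent.MWE

theorem bw_congr (R : List ℕ) (B B' : ℕ → List ℕ) (h : ∀ r ∈ R, B r = B' r) :
    Bw R B = Bw R B' := by
  induction R with
  | nil => rfl
  | cons a R ih =>
    have h1 := ih (fun r hr => h r (List.mem_cons_of_mem _ hr))
    unfold Bw at h1 ⊢
    rw [List.flatMap_cons, List.flatMap_cons, h1, h a List.mem_cons_self]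

theorem bw_filter (p : ℕ → Bool) (hp : ∀ r, p (3 * r + 2) = true) (R : List ℕ)
    (B : ℕ → List ℕ) : (Bw R B).filter p = Bw R (fun r => (B r).filter p) := by
  induction R with
  | nil => rfl
  | cons a R ih =>
    unfold Bw at ih ⊢
    rw [List.flatMap_cons, List.flatMap_cons, List.filter_append, List.filter_append, ih,
      List.filter_cons_of_pos (hp a), List.filter_nil]

theorem sfr_filter (p : ℕ → Bool) {l : List ℕ} (h : SFr l) : SFr (l.filter p) :=
  fun c hc => h c (List.mem_filter.1 hc).1

theorem filt_self (p : ℕ → Bool) (l : List ℕ) (h : ∀ a ∈ l, p a = true) : l.filter p = l :=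
  List.filter_eq_self.2 h

theorem gen (hTRG : TrgStmt) (β : FIC) (R c X : List ℕ) (B : ℕ → List ℕ) (e : List ℕ)
    (p : ℕ → Bool) (hp : ∀ r, p (3 * r + 2) = true) (hz : ∀ r, p (3 * r + 1) = true)
    (X1 L1 : List ℕ) (hX : X.filter p = X1) (hL : (0 :: (c ++ [3])).filter p = L1)
    (sX : SFr X1) (sL : SFr L1) (hR : R.Nodup) (sB : ∀ r, SFr (B r)) (se : SFr e)
    (he : e.filter p = e) (h : RR β (Ex R c X) (Bw R B ++ e)) (Lf Rt : ℕ → List ℕ) :
    RR β (Bw R (fun r => Lf r ++ ((if r = 0 then X1 else if r = 1 then L1
        else [3 * (r - 2) + 1]) ++ Rt r)))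
      (Bw R (fun r => Lf r ++ ((B r).filter p ++ Rt r)) ++ e) := by
  have h1 := h.filter p
  unfold Ex Eg at h1
  rw [List.filter_append, bw_filter p hp, bw_filter p hp, he] at h1
  have h2 : Bw R (fun r => (if r = 0 then X else if r = 1 then 0 :: (c ++ [3])
        else [3 * (r - 2) + 1]).filter p) =
      Bw R (fun r => if r = 0 then X1 else if r = 1 then L1 else [3 * (r - 2) + 1]) := by
    refine bw_congr R _ _ fun r _ => ?_
    by_cases h0 : r = 0
    · rw [if_pos h0, if_pos h0, hX]
    · rw [if_neg h0, if_neg h0]
      by_cases h3 : r = 1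
      · rw [if_pos h3, if_pos h3, hL]
      · rw [if_neg h3, if_neg h3]
        exact filt_self p _ (fun a ha => by rw [List.mem_singleton.1 ha]; exact hz _)
  rw [h2] at h1
  refine hTRG β R _ _ Lf Rt e hR ?_ ?_ se h1
  · intro r _
    by_cases h0 : r = 0
    · simp only [if_pos h0]
      exact sX
    · by_cases h3 : r = 1
      · simp only [if_neg h0, if_pos h3]
        exact sL
      · simp only [if_neg h0, if_neg h3]
        intro a ha
        rw [List.mem_singleton.1 ha]
        omega
  · intro r _
    exact sfr_filter p (sB r)

theorem tra (hTRG : TrgStmt) : TraStmt := by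
  intro β m R c X B e hc hR hX hB h
  have hnd : R.Nodup := hR.nodup_iff.2 List.nodup_range
  have c0 : 0 ∉ c := by
    intro h0
    rcases hc.lo 0 h0 with ⟨d, _, h1⟩ | ⟨_, h1, _⟩ <;> omega
  have c3 : 3 ∉ c := by
    intro h0
    rcases hc.lo 3 h0 with ⟨d, _, h1⟩ | ⟨_, h1, _⟩ <;> omega
  have cs : SFr c := by
    intro a ha
    rcases hc.lo a ha with ⟨d, _, h1⟩ | ⟨h1, _, _⟩ <;> omega
  have mem_ne : ∀ (l : List ℕ) (a b : ℕ), b ∉ l → a ∈ l → a ≠ b := by
    intro l a b hb ha hab
    rw [hab] at ha
    exact hb ha
  refine ⟨?_, ?_, ?_, ?_, ?_⟩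
  · -- both letters
    intro X' hX'
    have h1 := gen hTRG β R c X B e (fun a => decide (a ≠ 0 ∧ a ≠ 3))
      (fun r => by rw [decide_eq_true_iff]; omega) (fun r => by rw [decide_eq_true_iff]; omega)
      [] c (by rcases hX with rfl | rfl <;> decide) (by
        rw [List.filter_cons_of_neg (by decide), List.filter_append,
          List.filter_cons_of_neg (by decide), List.filter_nil, List.append_nil]
        refine filt_self _ c fun a ha => ?_
        rw [decide_eq_true_iff]
        exact ⟨mem_ne c a 0 c0 ha, mem_ne c a 3 c3 ha⟩)
      (by intro a ha; exact absurd ha List.not_mem_nil) cs hnd hB.sf hB.se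
      (filt_self _ e fun a ha => by
        rw [decide_eq_true_iff]
        exact ⟨mem_ne e a 0 hB.xe ha, mem_ne e a 3 hB.ye ha⟩) h
      (fun r => if r = 1 then [0] else []) (fun r => if r = 0 then X' else if r = 1 then [3] else [])
    have e1 : Bw R (fun r => (if r = 1 then [0] else []) ++ ((if r = 0 then [] else if r = 1 then c
        else [3 * (r - 2) + 1]) ++ (if r = 0 then X' else if r = 1 then [3] else []))) =
        Ex R c X' := by
      unfold Ex Eg
      refine bw_congr R _ _ fun r _ => ?_
      by_cases h0 : r = 0
      · rw [if_pos h0, if_pos h0, if_pos h0, if_neg (by omega)]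
        rfl
      · by_cases h3 : r = 1
        · rw [if_neg h0, if_neg h0, if_neg h0, if_pos h3, if_pos h3, if_pos h3, if_pos h3]
          rfl
        · rw [if_neg h0, if_neg h0, if_neg h0, if_neg h3, if_neg h3, if_neg h3, if_neg h3]
          rfl
    have e2 : Bw R (fun r => (if r = 1 then [0] else []) ++
        ((B r).filter (fun a => decide (a ≠ 0 ∧ a ≠ 3)) ++
          (if r = 0 then X' else if r = 1 then [3] else []))) = Bw R (tb B X') := by
      refine bw_congr R _ _ fun r hr => ?_
      unfold tb dxy
      by_cases h0 : r = 0
      · rw [if_pos h0, if_pos h0, if_neg (by omega), h0]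
        rfl
      · by_cases h3 : r = 1
        · rw [if_neg h0, if_neg h0, if_pos h3, if_pos h3, if_pos h3, h3]
          rfl
        · rw [if_neg h0, if_neg h0, if_neg h3, if_neg h3, if_neg h3, List.nil_append,
            List.append_nil]
          refine filt_self _ _ fun a ha => ?_
          rw [decide_eq_true_iff]
          exact ⟨mem_ne _ a 0 (hB.xo r hr h0 h3) ha, mem_ne _ a 3 (hB.yo r hr h0 h3) ha⟩
    rw [e1, e2] at h1
    exact h1
  · -- `y`, right ends
    have h1 := gen hTRG β R c X B e (fun a => decide (a ≠ 3))
      (fun r => by rw [decide_eq_true_iff]; omega) (fun r => by rw [decide_eq_true_iff]; omega)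
      [0] (0 :: c) (by rcases hX with rfl | rfl <;> decide) (by
        rw [List.filter_cons_of_pos (by decide), List.filter_append,
          List.filter_cons_of_neg (by decide), List.filter_nil, List.append_nil]
        rw [filt_self _ c fun a ha => by
          rw [decide_eq_true_iff]
          exact mem_ne c a 3 c3 ha])
      (by intro a ha; rw [List.mem_singleton.1 ha]; omega) (by
        intro a ha
        rcases List.mem_cons.1 ha with h2 | h2
        · rw [h2]; omega
        · exact cs a h2) hnd hB.sf hB.se
      (filt_self _ e fun a ha => by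
        rw [decide_eq_true_iff]
        exact mem_ne e a 3 hB.ye ha) h
      (fun _ => []) (fun r => if r = 0 then [3] else if r = 1 then [3] else [])
    have e1 : Bw R (fun r => [] ++ ((if r = 0 then [0] else if r = 1 then 0 :: c
        else [3 * (r - 2) + 1]) ++ (if r = 0 then [3] else if r = 1 then [3] else []))) =
        Ex R c [0, 3] := by
      unfold Ex Eg
      refine bw_congr R _ _ fun r _ => ?_
      by_cases h0 : r = 0
      · rw [if_pos h0, if_pos h0, if_pos h0]
        rfl
      · by_cases h3 : r = 1
        · rw [if_neg h0, if_neg h0, if_neg h0, if_pos h3, if_pos h3, if_pos h3]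
          rfl
        · rw [if_neg h0, if_neg h0, if_neg h0, if_neg h3, if_neg h3, if_neg h3]
          rfl
    have e2 : Bw R (fun r => [] ++ ((B r).filter (fun a => decide (a ≠ 3)) ++
          (if r = 0 then [3] else if r = 1 then [3] else []))) = Bw R (ty1 B) := by
      refine bw_congr R _ _ fun r hr => ?_
      unfold ty1 dy
      by_cases h0 : r = 0
      · rw [if_pos h0, if_pos h0, h0]
        rfl
      · by_cases h3 : r = 1
        · rw [if_neg h0, if_neg h0, if_pos h3, if_pos h3, h3]
          rfl
        · rw [if_neg h0, if_neg h0, if_neg h3, if_neg h3, List.nil_append,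
            List.append_nil]
          refine filt_self _ _ fun a ha => ?_
          rw [decide_eq_true_iff]
          exact mem_ne _ a 3 (hB.yo r hr h0 h3) ha
    rw [e1, e2] at h1
    exact h1
  · -- `y`, left end of block `0`
    have h1 := gen hTRG β R c X B e (fun a => decide (a ≠ 3))
      (fun r => by rw [decide_eq_true_iff]; omega) (fun r => by rw [decide_eq_true_iff]; omega)
      [0] (0 :: c) (by rcases hX with rfl | rfl <;> decide) (by
        rw [List.filter_cons_of_pos (by decide), List.filter_append,
          List.filter_cons_of_neg (by decide), List.filter_nil, List.append_nil]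
        rw [filt_self _ c fun a ha => by
          rw [decide_eq_true_iff]
          exact mem_ne c a 3 c3 ha])
      (by intro a ha; rw [List.mem_singleton.1 ha]; omega) (by
        intro a ha
        rcases List.mem_cons.1 ha with h2 | h2
        · rw [h2]; omega
        · exact cs a h2) hnd hB.sf hB.se
      (filt_self _ e fun a ha => by
        rw [decide_eq_true_iff]
        exact mem_ne e a 3 hB.ye ha) h
      (fun r => if r = 0 then [3] else []) (fun r => if r = 1 then [3] else [])
    have e1 : Bw R (fun r => (if r = 0 then [3] else []) ++ ((if r = 0 then [0] else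
        if r = 1 then 0 :: c else [3 * (r - 2) + 1]) ++ (if r = 1 then [3] else []))) =
        Ex R c [3, 0] := by
      unfold Ex Eg
      refine bw_congr R _ _ fun r _ => ?_
      by_cases h0 : r = 0
      · rw [if_pos h0, if_pos h0, if_pos h0, if_neg (by omega)]
        rfl
      · by_cases h3 : r = 1
        · rw [if_neg h0, if_neg h0, if_neg h0, if_pos h3, if_pos h3, if_pos h3]
          rfl
        · rw [if_neg h0, if_neg h0, if_neg h0, if_neg h3, if_neg h3, if_neg h3]
          rfl
    have e2 : Bw R (fun r => (if r = 0 then [3] else []) ++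
        ((B r).filter (fun a => decide (a ≠ 3)) ++ (if r = 1 then [3] else []))) =
        Bw R (ty2 B) := by
      refine bw_congr R _ _ fun r hr => ?_
      unfold ty2 dy
      by_cases h0 : r = 0
      · rw [if_pos h0, if_pos h0, if_neg (by omega), h0, List.append_nil]
        rfl
      · by_cases h3 : r = 1
        · rw [if_neg h0, if_neg h0, if_pos h3, if_pos h3, h3]
          rfl
        · rw [if_neg h0, if_neg h0, if_neg h3, if_neg h3, List.nil_append,
            List.append_nil]
          refine filt_self _ _ fun a ha => ?_
          rw [decide_eq_true_iff]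
          exact mem_ne _ a 3 (hB.yo r hr h0 h3) ha
    rw [e1, e2] at h1
    exact h1
  · -- `x`, left ends
    have h1 := gen hTRG β R c X B e (fun a => decide (a ≠ 0))
      (fun r => by rw [decide_eq_true_iff]; omega) (fun r => by rw [decide_eq_true_iff]; omega)
      [3] (c ++ [3]) (by rcases hX with rfl | rfl <;> decide) (by
        rw [List.filter_cons_of_neg (by decide), List.filter_append,
          List.filter_cons_of_pos (by decide), List.filter_nil]
        rw [filt_self _ c fun a ha => by
          rw [decide_eq_true_iff]
          exact mem_ne c a 0 c0 ha])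
      (by intro a ha; rw [List.mem_singleton.1 ha]; omega) (by
        intro a ha
        rcases List.mem_append.1 ha with h2 | h2
        · exact cs a h2
        · rw [List.mem_singleton.1 h2]; omega) hnd hB.sf hB.se
      (filt_self _ e fun a ha => by
        rw [decide_eq_true_iff]
        exact mem_ne e a 0 hB.xe ha) h
      (fun r => if r = 0 then [0] else if r = 1 then [0] else []) (fun _ => [])
    have e1 : Bw R (fun r => (if r = 0 then [0] else if r = 1 then [0] else []) ++
        ((if r = 0 then [3] else if r = 1 then c ++ [3] else [3 * (r - 2) + 1]) ++ [])) =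
        Ex R c [0, 3] := by
      unfold Ex Eg
      refine bw_congr R _ _ fun r _ => ?_
      rw [List.append_nil]
      by_cases h0 : r = 0
      · rw [if_pos h0, if_pos h0, if_pos h0]
        rfl
      · by_cases h3 : r = 1
        · rw [if_neg h0, if_neg h0, if_neg h0, if_pos h3, if_pos h3, if_pos h3]
          rfl
        · rw [if_neg h0, if_neg h0, if_neg h0, if_neg h3, if_neg h3, if_neg h3]
          rfl
    have e2 : Bw R (fun r => (if r = 0 then [0] else if r = 1 then [0] else []) ++
        ((B r).filter (fun a => decide (a ≠ 0)) ++ [])) = Bw R (tx1 B) := by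
      refine bw_congr R _ _ fun r hr => ?_
      unfold tx1 dx
      rw [List.append_nil]
      by_cases h0 : r = 0
      · rw [if_pos h0, if_pos h0, h0]
        rfl
      · by_cases h3 : r = 1
        · rw [if_neg h0, if_neg h0, if_pos h3, if_pos h3, h3]
          rfl
        · rw [if_neg h0, if_neg h0, if_neg h3, if_neg h3, List.nil_append]
          refine filt_self _ _ fun a ha => ?_
          rw [decide_eq_true_iff]
          exact mem_ne _ a 0 (hB.xo r hr h0 h3) ha
    rw [e1, e2] at h1
    exact h1
  · -- `x`, right end of block `0`
    have h1 := gen hTRG β R c X B e (fun a => decide (a ≠ 0))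
      (fun r => by rw [decide_eq_true_iff]; omega) (fun r => by rw [decide_eq_true_iff]; omega)
      [3] (c ++ [3]) (by rcases hX with rfl | rfl <;> decide) (by
        rw [List.filter_cons_of_neg (by decide), List.filter_append,
          List.filter_cons_of_pos (by decide), List.filter_nil]
        rw [filt_self _ c fun a ha => by
          rw [decide_eq_true_iff]
          exact mem_ne c a 0 c0 ha])
      (by intro a ha; rw [List.mem_singleton.1 ha]; omega) (by
        intro a ha
        rcases List.mem_append.1 ha with h2 | h2
        · exact cs a h2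
        · rw [List.mem_singleton.1 h2]; omega) hnd hB.sf hB.se
      (filt_self _ e fun a ha => by
        rw [decide_eq_true_iff]
        exact mem_ne e a 0 hB.xe ha) h
      (fun r => if r = 1 then [0] else []) (fun r => if r = 0 then [0] else [])
    have e1 : Bw R (fun r => (if r = 1 then [0] else []) ++ ((if r = 0 then [3] else
        if r = 1 then c ++ [3] else [3 * (r - 2) + 1]) ++ (if r = 0 then [0] else []))) =
        Ex R c [3, 0] := by
      unfold Ex Eg
      refine bw_congr R _ _ fun r _ => ?_
      by_cases h0 : r = 0
      · rw [if_pos h0, if_pos h0, if_pos h0, if_neg (by omega)]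
        rfl
      · by_cases h3 : r = 1
        · rw [if_neg h0, if_neg h0, if_neg h0, if_pos h3, if_pos h3, if_pos h3, List.append_nil]
          rfl
        · rw [if_neg h0, if_neg h0, if_neg h0, if_neg h3, if_neg h3, if_neg h3]
          rfl
    have e2 : Bw R (fun r => (if r = 1 then [0] else []) ++
        ((B r).filter (fun a => decide (a ≠ 0)) ++ (if r = 0 then [0] else []))) =
        Bw R (tx2 B) := by
      refine bw_congr R _ _ fun r hr => ?_
      unfold tx2 dx
      by_cases h0 : r = 0
      · rw [if_pos h0, if_pos h0, if_neg (by omega), h0, List.nil_append]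
      · by_cases h3 : r = 1
        · rw [if_neg h0, if_neg h0, if_pos h3, if_pos h3, h3, List.append_nil]
          rfl
        · rw [if_neg h0, if_neg h0, if_neg h3, if_neg h3, List.nil_append,
            List.append_nil]
          refine filt_self _ _ fun a ha => ?_
          rw [decide_eq_true_iff]
          exact mem_ne _ a 0 (hB.xo r hr h0 h3) ha
    rw [e1, e2] at h1
    exact h1

end Pool.Agent.MWE.H23
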